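import Pool.Agent.N684.BK.Stm

/-!
Project BK (helper684): random polynomials have few excess components.
-/

set_option autoImplicit false

open MvPolynomial Filter
open scoped ENNReal

namespace Pool.Agent.N591.BK.FE

open Pool.Agent.N684.BK

lemma dimQ_le (F : Type) [Field F] (N : ℕ) (P : Ideal (MvPolynomial (Fin N) F)) : dimQ P ≤ N := by
  unfold dimQ
  have h1 : Algebra.trdeg F (MvPolynomial (Fin N) F ⧸ P) ≤ Algebra.trdeg F (MvPolynomial (Fin N) F) :=
    trdeg_le_of_surjective (Ideal.Quotient.mkₐ F P) (Ideal.Quotient.mkₐ_surjective F P)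
  rw [MvPolynomial.trdeg_of_isDomain] at h1
  have h2 : Cardinal.lift.{0, 0} (Cardinal.mk (Fin N)) = (N : Cardinal) := by simp
  rw [h2] at h1
  have h3 := Cardinal.toNat_le_toNat h1 (Cardinal.natCast_lt_aleph0)
  rwa [Cardinal.toNat_natCast] at h3

lemma PW_fin (F : Type) [Field F] {N : ℕ} (wt : Fin N → ℕ) (h : ∀ i, 1 ≤ wt i) (K : ℕ) :
    Module.Finite F (PW F wt K) := by
  have hfin : {m : Fin N →₀ ℕ | wd wt m ≤ K}.Finite := by
    refine (Set.finite_Icc (0 : Fin N →₀ ℕ) (Finsupp.equivFunOnFinite.symm fun _ => K)).subset ?_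
    intro m hm
    refine ⟨fun i => Nat.zero_le _, fun i => ?_⟩
    have hm' : ∑ i, wt i * m i ≤ K := hm
    calc m i ≤ wt i * m i := Nat.le_mul_of_pos_left _ (h i)
      _ ≤ ∑ i, wt i * m i := Finset.single_le_sum (f := fun i => wt i * m i)
        (fun _ _ => Nat.zero_le _) (Finset.mem_univ i)
      _ ≤ K := hm'
  have : Finite {m : Fin N →₀ ℕ | wd wt m ≤ K} := hfin
  exact Module.Finite.of_basis (basisRestrictSupport F {m : Fin N →₀ ℕ | wd wt m ≤ K})

lemma PW_mono (F : Type) [Field F] {N : ℕ} (wt : Fin N → ℕ) {K K' : ℕ} (h : K ≤ K') :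
    PW F wt K ≤ PW F wt K' :=
  restrictSupport_mono F fun _ hm => le_trans (show wd wt _ ≤ K from hm) h

/-- the first coordinate -/
lemma slice {i : ℕ} (A : Fin (i + 1) → Type) [∀ l, Finite (A l)] [Fintype (A 0)]
    (p : (∀ l, A l) → Prop) :
    Nat.card {w // p w} = ∑ u : A 0, Nat.card {w' : ∀ l : Fin i, A l.succ // p (Fin.cons u w')} := by
  rw [← Nat.card_sigma]
  refine Nat.card_congr ⟨fun w => ⟨w.1 0, ⟨Fin.tail w.1, ?_⟩⟩, fun x => ⟨Fin.cons x.1 x.2.1, x.2.2⟩,
    ?_, ?_⟩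
  · rw [Fin.cons_self_tail]
    exact w.2
  · intro w
    apply Subtype.ext
    exact Fin.cons_self_tail w.1
  · rintro ⟨u, w', hw⟩
    rfl

/-- union bound -/
lemma ubound {α β : Type} [Finite α] (p : α → Prop) (s : Finset β) (E : β → α → Prop)
    (h : ∀ a, p a → ∃ b ∈ s, E b a) : Nat.card {a // p a} ≤ ∑ b ∈ s, Nat.card {a // E b a} := by
  classical
  have := Fintype.ofFinite α
  simp only [Nat.card_eq_fintype_card, Fintype.card_subtype]
  refine (Finset.card_le_card ?_).trans Finset.card_biUnion_le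
  intro a ha
  obtain ⟨b, hb, hE⟩ := h a (Finset.mem_filter.1 ha).2
  exact Finset.mem_biUnion.2 ⟨b, hb, Finset.mem_filter.2 ⟨Finset.mem_univ a, hE⟩⟩

lemma sub_card {α : Type} [Finite α] (p q : α → Prop) (h : ∀ a, p a → q a) :
    Nat.card {a // p a} ≤ Nat.card {a // q a} :=
  Nat.card_le_card_of_injective (Subtype.map id h) (Subtype.map_injective h Function.injective_id)

/-- the constants -/
def cc (N M d₀ : ℕ) : ℕ → ℕ
  | 0 => (M + 1) ^ N
  | i + 1 => (M + 1) ^ N + cc N M d₀ i + (d₀ + 1) * cc N M d₀ i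

lemma cc_ge (N M d₀ i : ℕ) : (M + 1) ^ N ≤ cc N M d₀ i := by
  cases i with
  | zero => exact le_rfl
  | succ i =>
    unfold cc
    omega

section

variable {F : Type} [Field F] {N : ℕ}

/-- the event -/
def Evt (δ μ i : ℕ) (P : Ideal (MvPolynomial (Fin N) F))
    (U : Fin i → Submodule F (MvPolynomial (Fin N) F)) (w : ∀ l, U l) : Prop :=
  ∃ Q : Ideal (MvPolynomial (Fin N) F), Q.IsPrime ∧ P ≤ Q ∧
      (∀ l, (w l : MvPolynomial (Fin N) F) ∈ Q) ∧ δ ≤ dimQ Q ∧ dimQ P + μ ≤ dimQ Q + i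

end

theorem main (hDIM : S_DIM) (hMONO : S_MONO) (hBEZ : S_BEZ) (hLOW : S_LOW) (N M d₀ : ℕ)
    (F : Type) [Field F] [Fintype F] (wt : Fin N → ℕ) (hwt : ∀ i, 1 ≤ wt i ∧ wt i ≤ M)
    (h δ : ℕ) : ∀ (i μ : ℕ) (P : Ideal (MvPolynomial (Fin N) F)), P.IsPrime →
  ∀ U : Fin i → Submodule F (MvPolynomial (Fin N) F), (∀ l, U l ≤ PW F wt d₀) →
  (∀ Q : Ideal (MvPolynomial (Fin N) F), Q.IsPrime → P ≤ Q → δ ≤ dimQ Q → ∀ l, Cd (U l) Q h) →
  (Fintype.card F : ℝ≥0∞) ^ (μ * h) * (Nat.card {w : ∀ l, U l // Evt δ μ i P U w} : ℝ≥0∞) ≤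
    cc N M d₀ i * Deg wt (dimQ P) P * ∏ l, (Nat.card (U l) : ℝ≥0∞) := by
  have hwt1 : ∀ i, 1 ≤ wt i := fun i => (hwt i).1
  -- finiteness
  have hUfin : ∀ U : Submodule F (MvPolynomial (Fin N) F), U ≤ PW F wt d₀ → Module.Finite F U := by
    intro U hU
    have := PW_fin F wt hwt1 d₀
    exact Module.Finite.of_injective (Submodule.inclusion hU) (Submodule.inclusion_injective hU)
  have hUfin' : ∀ U : Submodule F (MvPolynomial (Fin N) F), U ≤ PW F wt d₀ → Finite U := by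
    intro U hU
    have := hUfin U hU
    exact Module.finite_of_finite F
  -- the lower bound
  have hlow : ∀ (i : ℕ) (P : Ideal (MvPolynomial (Fin N) F)), P.IsPrime →
      1 ≤ (cc N M d₀ i : ℝ≥0∞) * Deg wt (dimQ P) P := by
    intro i P hP
    refine (hLOW F N M wt hwt P hP).trans ?_
    gcongr
    have h1 : M ^ dimQ P ≤ cc N M d₀ i :=
      calc M ^ dimQ P ≤ (M + 1) ^ dimQ P := Nat.pow_le_pow_left (Nat.le_succ M) _
        _ ≤ (M + 1) ^ N := Nat.pow_le_pow_right (Nat.succ_pos M) (dimQ_le F N P)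
        _ ≤ _ := cc_ge N M d₀ i
    exact_mod_cast h1
  intro i
  induction i with
  | zero =>
    intro μ P hP U hU hyp
    rcases Nat.eq_zero_or_pos μ with hμ | hμ
    · subst hμ
      have h1 : (Nat.card {w : ∀ l, U l // Evt δ 0 0 P U w} : ℝ≥0∞) ≤ 1 := by
        have h2 : Nat.card {w : ∀ l, U l // Evt δ 0 0 P U w} ≤ 1 := by
          rw [Finite.card_le_one_iff_subsingleton]
          exact ⟨fun a b => Subtype.ext (funext fun l => l.elim0)⟩
        exact_mod_cast h2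
      rw [Nat.zero_mul, pow_zero, one_mul, Finset.univ_eq_empty, Finset.prod_empty, mul_one]
      exact h1.trans (hlow 0 P hP)
    · have h1 : Nat.card {w : ∀ l, U l // Evt δ μ 0 P U w} = 0 := by
        rw [Nat.card_eq_zero]
        left
        refine ⟨?_⟩
        rintro ⟨w, Q, hQ, hPQ, -, -, h5⟩
        have := hMONO F N P Q hP hQ hPQ
        omega
      rw [h1, Nat.cast_zero, mul_zero]
      exact zero_le
  | succ i ih =>
    intro μ P hP U hU hyp
    have : ∀ l, Finite (U l) := fun l => hUfin' _ (hU l)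
    have : ∀ l, Module.Finite F (U l) := fun l => hUfin _ (hU l)
    rcases Nat.eq_zero_or_pos μ with hμ | hμ
    · subst hμ
      rw [Nat.zero_mul, pow_zero, one_mul]
      have h1 : (Nat.card {w : ∀ l, U l // Evt δ 0 (i + 1) P U w} : ℝ≥0∞) ≤
          ∏ l, (Nat.card (U l) : ℝ≥0∞) := by
        have h2 : Nat.card {w : ∀ l, U l // Evt δ 0 (i + 1) P U w} ≤ ∏ l, Nat.card (U l) := by
          rw [← Nat.card_pi]
          exact Nat.card_le_card_of_injective _ Subtype.val_injective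
        exact_mod_cast h2
      calc _ ≤ ∏ l, (Nat.card (U l) : ℝ≥0∞) := h1
        _ = 1 * ∏ l, (Nat.card (U l) : ℝ≥0∞) := (one_mul _).symm
        _ ≤ _ := by
          gcongr
          exact hlow (i + 1) P hP
    obtain ⟨μ', rfl⟩ : ∃ μ', μ = μ' + 1 := ⟨μ - 1, by omega⟩
    by_cases hδ : δ ≤ dimQ P
    swap
    · have h1 : Nat.card {w : ∀ l, U l // Evt δ (μ' + 1) (i + 1) P U w} = 0 := by
        rw [Nat.card_eq_zero]
        left
        refine ⟨?_⟩
        rintro ⟨w, Q, hQ, hPQ, -, h4, -⟩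
        have := hMONO F N P Q hP hQ hPQ
        omega
      rw [h1, Nat.cast_zero, mul_zero]
      exact zero_le
    classical
    have : Fintype (U 0) := Fintype.ofFinite _
    set q : ℝ≥0∞ := (Fintype.card F : ℝ≥0∞) with hq
    set D : ℝ≥0∞ := Deg wt (dimQ P) P with hD
    set Rr : ℝ≥0∞ := ∏ l : Fin i, (Nat.card (U l.succ) : ℝ≥0∞) with hRr
    set a0 : ℝ≥0∞ := (Nat.card (U 0) : ℝ≥0∞) with ha0
    obtain ⟨S, hS⟩ : ∃ S : U 0 → ℕ, S = fun u => Nat.card {w' : ∀ l : Fin i, U l.succ //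
      Evt δ (μ' + 1) (i + 1) P U (Fin.cons u w')} := ⟨_, rfl⟩
    have hslice : (Nat.card {w : ∀ l, U l // Evt δ (μ' + 1) (i + 1) P U w} : ℝ≥0∞) =
        ∑ u : U 0, (S u : ℝ≥0∞) := by
      rw [slice (fun l => U l) (Evt δ (μ' + 1) (i + 1) P U), hS]
      push_cast
      rfl
    -- claim 1
    have claim1 : ∀ u : U 0, (u : MvPolynomial (Fin N) F) ∈ P →
        q ^ (μ' * h) * (S u : ℝ≥0∞) ≤ cc N M d₀ i * D * Rr := by
      intro u hu
      refine le_trans ?_ (ih μ' P hP (fun l => U l.succ) (fun l => hU l.succ)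
        (fun Q hQ hPQ hQδ l => hyp Q hQ hPQ hQδ l.succ))
      have h2 : S u ≤ Nat.card {w' : ∀ l : Fin i, U l.succ //
          Evt δ μ' i P (fun l => U l.succ) w'} := by
        rw [hS]
        refine sub_card _ _ ?_
        rintro w' ⟨Q, hQ, hPQ, h3, h4, h5⟩
        refine ⟨Q, hQ, hPQ, fun l => ?_, h4, by omega⟩
        have := h3 l.succ
        rwa [Fin.cons_succ] at this
      gcongr
    -- claim 2
    have claim2 : ∀ u : U 0, (u : MvPolynomial (Fin N) F) ∉ P →
        q ^ ((μ' + 1) * h) * (S u : ℝ≥0∞) ≤ (d₀ + 1 : ℝ≥0∞) * (cc N M d₀ i * D * Rr) := by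
      intro u hu
      obtain ⟨J, hJ⟩ : ∃ J : Ideal (MvPolynomial (Fin N) F),
        J = P ⊔ Ideal.span {(u : MvPolynomial (Fin N) F)} := ⟨_, rfl⟩
      have hfin := Ideal.finite_minimalPrimes_of_isNoetherianRing (MvPolynomial (Fin N) F) J
      obtain ⟨s, hs⟩ : ∃ s : Finset (Ideal (MvPolynomial (Fin N) F)), s = hfin.toFinset := ⟨_, rfl⟩
      have hmem : ∀ Q, Q ∈ s ↔ Q ∈ J.minimalPrimes := fun Q => by rw [hs, Set.Finite.mem_toFinset]
      have hPJ : P ≤ J := by rw [hJ]; exact le_sup_left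
      have huJ : (u : MvPolynomial (Fin N) F) ∈ J := by
        rw [hJ]
        exact Ideal.mem_sup_right (Ideal.mem_span_singleton_self _)
      have hpr : ∀ Q ∈ s, Q.IsPrime ∧ J ≤ Q := fun Q hQ => ((hmem Q).1 hQ).1
      have hdim : ∀ Q ∈ s, dimQ Q + 1 = dimQ P := fun Q hQ => by
        have := (hmem Q).1 hQ
        rw [hJ] at this
        exact hDIM F N P Q _ hP hu this
      have h2 : S u ≤ ∑ Q ∈ s, Nat.card {w' : ∀ l : Fin i, U l.succ //
          Evt δ (μ' + 1) i Q (fun l => U l.succ) w'} := by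
        rw [hS]
        refine ubound _ s (fun Q w' => Evt δ (μ' + 1) i Q (fun l => U l.succ) w') ?_
        rintro w' ⟨Q, hQ, hPQ, h3, h4, h5⟩
        have hJQ : J ≤ Q := by
          rw [hJ]
          refine sup_le hPQ ?_
          rw [Ideal.span_singleton_le_iff_mem]
          have := h3 0
          rwa [Fin.cons_zero] at this
        obtain ⟨Q', hQ', hQ'Q⟩ := Ideal.exists_minimalPrimes_le hJQ
        have hQ's := (hmem Q').2 hQ'
        refine ⟨Q', hQ's, Q, hQ, hQ'Q, fun l => ?_, h4, ?_⟩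
        · have := h3 l.succ
          rwa [Fin.cons_succ] at this
        · have := hdim Q' hQ's
          omega
      have h3 : ∀ Q ∈ s, q ^ ((μ' + 1) * h) * (Nat.card {w' : ∀ l : Fin i, U l.succ //
          Evt δ (μ' + 1) i Q (fun l => U l.succ) w'} : ℝ≥0∞) ≤
            cc N M d₀ i * Deg wt (dimQ Q) Q * Rr := fun Q hQ =>
        ih (μ' + 1) Q (hpr Q hQ).1 (fun l => U l.succ) (fun l => hU l.succ)
          (fun Q' hQ' hQQ' hQδ l => hyp Q' hQ' ((hPJ.trans (hpr Q hQ).2).trans hQQ') hQδ l.succ)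
      have h4 : ∑ Q ∈ s, Deg wt (dimQ Q) Q ≤ (d₀ + 1 : ℝ≥0∞) * D := by
        rcases s.eq_empty_or_nonempty with he | ⟨Q0, hQ0⟩
        · rw [he, Finset.sum_empty]
          exact zero_le
        · have hd0 := hdim Q0 hQ0
          have h5 : ∑ Q ∈ s, Deg wt (dimQ Q) Q = ∑ Q ∈ s, Deg wt (dimQ P - 1) Q := by
            refine Finset.sum_congr rfl fun Q hQ => ?_
            have := hdim Q hQ
            rw [show dimQ Q = dimQ P - 1 by omega]
          rw [h5]
          have h6 := hBEZ F N wt hwt1 (dimQ P - 1) (d₀ + 1) P u s hP hu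
            (PW_mono F wt (Nat.le_succ d₀) (hU 0 u.2)) (Nat.succ_le_succ (Nat.zero_le _))
            (fun Q hQ => ⟨(hpr Q hQ).1, hPJ.trans (hpr Q hQ).2, (hpr Q hQ).2 huJ⟩)
            (fun Q hQ Q' hQ' hle => le_antisymm hle
              (((hmem Q').1 hQ').2 ((hmem Q).1 hQ).1 hle))
          rw [show dimQ P - 1 + 1 = dimQ P by omega] at h6
          push_cast at h6
          exact h6
      calc q ^ ((μ' + 1) * h) * (S u : ℝ≥0∞)
          ≤ q ^ ((μ' + 1) * h) * ((∑ Q ∈ s, Nat.card {w' : ∀ l : Fin i, U l.succ //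
            Evt δ (μ' + 1) i Q (fun l => U l.succ) w'} : ℕ) : ℝ≥0∞) := by
            gcongr
        _ = ∑ Q ∈ s, q ^ ((μ' + 1) * h) * (Nat.card {w' : ∀ l : Fin i, U l.succ //
            Evt δ (μ' + 1) i Q (fun l => U l.succ) w'} : ℝ≥0∞) := by
            push_cast
            rw [Finset.mul_sum]
        _ ≤ ∑ Q ∈ s, cc N M d₀ i * Deg wt (dimQ Q) Q * Rr := Finset.sum_le_sum h3
        _ = cc N M d₀ i * (∑ Q ∈ s, Deg wt (dimQ Q) Q) * Rr := by
            rw [Finset.mul_sum, Finset.sum_mul]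
        _ ≤ cc N M d₀ i * ((d₀ + 1 : ℝ≥0∞) * D) * Rr := by gcongr
        _ = _ := by ring
    -- claim 3
    have claim3 : q ^ h * (((Finset.univ.filter fun u : U 0 =>
        (u : MvPolynomial (Fin N) F) ∈ P).card : ℕ) : ℝ≥0∞) ≤ a0 := by
      have hc := hyp P hP le_rfl hδ 0
      unfold Cd at hc
      have h1 : (Finset.univ.filter fun u : U 0 => (u : MvPolynomial (Fin N) F) ∈ P).card =
          Nat.card ↥(U 0 ⊓ P.restrictScalars F) := by
        rw [← Fintype.card_subtype, ← Nat.card_eq_fintype_card]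
        exact Nat.card_congr ⟨fun u => ⟨u.1.1, u.1.2, u.2⟩, fun v => ⟨⟨v.1, v.2.1⟩, v.2.2⟩,
          fun _ => rfl, fun _ => rfl⟩
      have : Module.Finite F ↥(U 0 ⊓ P.restrictScalars F) :=
        Module.Finite.of_injective (Submodule.inclusion inf_le_left)
          (Submodule.inclusion_injective inf_le_left)
      have h2 : Fintype.card F ^ h * Nat.card ↥(U 0 ⊓ P.restrictScalars F) ≤ Nat.card (U 0) := by
        rw [Module.natCard_eq_pow_finrank (K := F) (V := ↥(U 0 ⊓ P.restrictScalars F)),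
          Module.natCard_eq_pow_finrank (K := F) (V := U 0), Nat.card_eq_fintype_card, ← pow_add]
        exact Nat.pow_le_pow_right Fintype.card_pos hc
      rw [h1, hq, ha0]
      exact_mod_cast h2
    -- conclusion
    rw [hslice, ← Finset.sum_filter_add_sum_filter_not Finset.univ
      (fun u : U 0 => (u : MvPolynomial (Fin N) F) ∈ P), mul_add, Finset.mul_sum, Finset.mul_sum,
      Fin.prod_univ_succ]
    have e1 : ∑ u ∈ Finset.univ.filter (fun u : U 0 => (u : MvPolynomial (Fin N) F) ∈ P),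
        q ^ ((μ' + 1) * h) * (S u : ℝ≥0∞) ≤ a0 * (cc N M d₀ i * D * Rr) := by
      calc _ ≤ ∑ u ∈ Finset.univ.filter (fun u : U 0 => (u : MvPolynomial (Fin N) F) ∈ P),
            q ^ h * (cc N M d₀ i * D * Rr) := by
            refine Finset.sum_le_sum fun u hu => ?_
            have := claim1 u (Finset.mem_filter.1 hu).2
            calc q ^ ((μ' + 1) * h) * (S u : ℝ≥0∞) = q ^ h * (q ^ (μ' * h) * (S u : ℝ≥0∞)) := by
                  rw [← mul_assoc, ← pow_add]
                  congr 2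
                  ring
              _ ≤ _ := by gcongr
        _ = (q ^ h * (((Finset.univ.filter fun u : U 0 =>
              (u : MvPolynomial (Fin N) F) ∈ P).card : ℕ) : ℝ≥0∞)) * (cc N M d₀ i * D * Rr) := by
            rw [Finset.sum_const, nsmul_eq_mul]
            ring
        _ ≤ _ := by gcongr
    have e2 : ∑ u ∈ Finset.univ.filter (fun u : U 0 => ¬ (u : MvPolynomial (Fin N) F) ∈ P),
        q ^ ((μ' + 1) * h) * (S u : ℝ≥0∞) ≤ a0 * ((d₀ + 1 : ℝ≥0∞) * (cc N M d₀ i * D * Rr)) := by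
      calc _ ≤ ∑ u ∈ Finset.univ.filter (fun u : U 0 => ¬ (u : MvPolynomial (Fin N) F) ∈ P),
            (d₀ + 1 : ℝ≥0∞) * (cc N M d₀ i * D * Rr) :=
            Finset.sum_le_sum fun u hu => claim2 u (Finset.mem_filter.1 hu).2
        _ ≤ ∑ u : U 0, (d₀ + 1 : ℝ≥0∞) * (cc N M d₀ i * D * Rr) :=
            Finset.sum_le_sum_of_subset (Finset.filter_subset _ _)
        _ = _ := by
            rw [Finset.sum_const, nsmul_eq_mul, ha0, Nat.card_eq_fintype_card, Finset.card_univ]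
    refine (add_le_add e1 e2).trans ?_
    have e3 : (cc N M d₀ (i + 1) : ℝ≥0∞) =
        ((M + 1) ^ N : ℝ≥0∞) + cc N M d₀ i + (d₀ + 1) * cc N M d₀ i := by
      show (((M + 1) ^ N + cc N M d₀ i + (d₀ + 1) * cc N M d₀ i : ℕ) : ℝ≥0∞) = _
      push_cast
      rfl
    rw [e3]
    calc a0 * (cc N M d₀ i * D * Rr) + a0 * ((d₀ + 1 : ℝ≥0∞) * (cc N M d₀ i * D * Rr)) =
          (cc N M d₀ i + (d₀ + 1) * cc N M d₀ i) * D * (a0 * Rr) := by ring
      _ ≤ _ := by
        gcongr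
        exact le_add_self

theorem FE (hDIM : S_DIM) (hMONO : S_MONO) (hBEZ : S_BEZ) (hLOW : S_LOW) : S_FE := by
  intro N M d₀
  refine ⟨cc N M d₀, ?_⟩
  intro F _ _ wt hwt i h μ δ P hP U hU hyp
  exact main hDIM hMONO hBEZ hLOW N M d₀ F wt hwt h δ i μ P hP U hU hyp

end Pool.Agent.N591.BK.FE
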